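import Pool.Agent.Q123.PHJ.Basic

/-!
Problem MP_90b327_co (restricted density polynomial Hales-Jewett conjecture): the exact maximum
size of a family of subsets of `[N]^d` that is closed under unions and intersections and not good.
-/

set_option autoImplicit false

namespace Pool.Agent.Results.MP_90b327_co.ExactLattices

open Finset

/-- `cube d γ` is `γ^d`, the set of all `d`-tuples with entries in `γ`. -/
def cube {N : ℕ} (d : ℕ) (γ : Finset (Fin N)) : Finset (Fin d → Fin N) :=
  Fintype.piFinset (fun _ : Fin d => γ)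

/-- A family `S` of subsets of `[N]^d` is good if there are `A ∈ S` and a nonempty `γ ⊆ [N]` with
`A ∩ γ^d = ∅` and `A ∪ γ^d ∈ S`. -/
def Good {N d : ℕ} (S : Finset (Finset (Fin d → Fin N))) : Prop :=
  ∃ A ∈ S, ∃ γ : Finset (Fin N), γ.Nonempty ∧ Disjoint A (cube d γ) ∧ A ∪ cube d γ ∈ S

/-- closed under unions and intersections of two members -/
def UnionInterClosed {X : Type} [DecidableEq X] (S : Finset (Finset X)) : Prop :=
  ∀ A ∈ S, ∀ B ∈ S, A ∪ B ∈ S ∧ A ∩ B ∈ S

theorem result :
    -- the maximum is exactly `2 ^ (N ^ d - N)`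
    (∀ d N : ℕ, 1 ≤ d → IsGreatest {c | ∃ S : Finset (Finset (Fin d → Fin N)),
      UnionInterClosed S ∧ ¬ Good S ∧ S.card = c} (2 ^ (N ^ d - N))) ∧
    -- the same bound for general monotone set functions `g` in place of `γ ↦ γ^d`
    (∀ (N : ℕ) (X : Type) [Fintype X] [DecidableEq X] (g : Finset (Fin N) → Finset X)
      (ix : X → Fin N), (∀ γ γ', γ ⊆ γ' → g γ ⊆ g γ') → (∀ γ, ∀ c ∈ g γ, ix c ∈ γ) →
      ∀ S : Finset (Finset X), UnionInterClosed S → 2 ^ Fintype.card X < 2 ^ N * S.card →
        ∃ A ∈ S, ∃ γ : Finset (Fin N), γ.Nonempty ∧ Disjoint A (g γ) ∧ A ∪ g γ ∈ S) := by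
  classical
  have gen : ∀ (N : ℕ) (X : Type) [Fintype X] [DecidableEq X] (g : Finset (Fin N) → Finset X)
      (ix : X → Fin N), (∀ γ γ', γ ⊆ γ' → g γ ⊆ g γ') → (∀ γ, ∀ c ∈ g γ, ix c ∈ γ) →
      ∀ S : Finset (Finset X), UnionInterClosed S → 2 ^ Fintype.card X < 2 ^ N * S.card →
        ∃ A ∈ S, ∃ γ : Finset (Fin N), γ.Nonempty ∧ Disjoint A (g γ) ∧ A ∪ g γ ∈ S := by
    intro N X _ _ g ix h1 h2 S hS hcard
    by_contra hcon
    push Not at hcon
    have := Q123.PHJ.main g h1 ix h2 S hS hcon
    rw [mul_comm] at this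
    exact absurd this (not_le.2 hcard)
  refine ⟨?_, gen⟩
  intro d N hd
  have hle : N ≤ N ^ d := by
    rcases Nat.eq_zero_or_pos N with rfl | hN
    · simp
    · exact Nat.le_self_pow (by omega) N
  constructor
  · -- the sets without diagonal cells
    set D : Finset (Fin d → Fin N) := univ.image fun (x : Fin N) (_ : Fin d) => x with hD
    have hDcard : D.card = N := by
      rw [hD, card_image_of_injective, card_univ, Fintype.card_fin]
      intro x y hxy
      exact congrFun hxy ⟨0, hd⟩
    refine ⟨Dᶜ.powerset, ?_, ?_, ?_⟩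
    · intro A hA B hB
      rw [mem_powerset] at hA hB
      exact ⟨mem_powerset.2 (union_subset hA hB), mem_powerset.2 (inter_subset_left.trans hA)⟩
    · rintro ⟨A, -, γ, ⟨x, hx⟩, -, h2⟩
      rw [mem_powerset] at h2
      have h3 : (fun _ : Fin d => x) ∈ Dᶜ := h2 (mem_union_right _ (by
        unfold cube
        rw [Fintype.mem_piFinset]
        exact fun _ => hx))
      rw [mem_compl] at h3
      exact h3 (mem_image.2 ⟨x, mem_univ _, rfl⟩)
    · rw [card_powerset, card_compl, hDcard]
      simp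
  · rintro c ⟨S, hS, hbad, rfl⟩
    by_contra hcon
    push Not at hcon
    apply hbad
    obtain ⟨A, hA, γ, h1, h2, h3⟩ := gen N (Fin d → Fin N) (cube d) (fun c => c ⟨0, hd⟩)
      (fun γ γ' h => by
        intro c hc
        unfold cube at hc ⊢
        rw [Fintype.mem_piFinset] at hc ⊢
        exact fun i => h (hc i))
      (fun γ c hc => by
        unfold cube at hc
        rw [Fintype.mem_piFinset] at hc
        exact hc _) S hS (by
        have h4 : Fintype.card (Fin d → Fin N) = N ^ d := by simp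
        rw [h4]
        calc 2 ^ N ^ d = 2 ^ N * 2 ^ (N ^ d - N) := by rw [← pow_add]; congr 1; omega
          _ < 2 ^ N * S.card := Nat.mul_lt_mul_of_pos_left hcon (by positivity))
    exact ⟨A, hA, γ, h1, h2, h3⟩

end Pool.Agent.Results.MP_90b327_co.ExactLattices
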