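import Pool.Agent.Q93.FA.Sections

/-!
Problem MP_90b327_co (restricted density polynomial Hales-Jewett conjecture): families with few
alternations along the diagonal.

For a family `F` of subsets of `[N]^d` and a set `A₀` of cells off the diagonal, the section of `F`
over `A₀` consists of the sets `B ⊆ [N]` with `A₀ ∪ {(i, …, i) : i ∈ B} ∈ F`. If every section of
`F` can be partitioned into `T` convex families of subsets of `[N]`, then every subfamily `S ⊆ F`
that is not good has `2 |S| ≤ |F| + T (N choose N/2) 2^(N^d - N)`; so `F` itself, if it is not good,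
has at most `T (N choose N/2) 2^(N^d - N)` members, and this is sharp for `T = 1`.
-/

set_option autoImplicit false

namespace Pool.Agent.Results.MP_90b327_co.FewAlternations

open Finset Pool.Agent.Q93.FA

/-- `cube d γ` is `γ^d`, the set of all `d`-tuples with entries in `γ`. -/
def cube {N : ℕ} (d : ℕ) (γ : Finset (Fin N)) : Finset (Fin d → Fin N) :=
  Fintype.piFinset (fun _ : Fin d => γ)

/-- A family `S` of subsets of `[N]^d` is good if there are `A ∈ S` and a nonempty `γ ⊆ [N]` with
`A ∩ γ^d = ∅` and `A ∪ γ^d ∈ S`. -/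
def Good {N d : ℕ} (S : Finset (Finset (Fin d → Fin N))) : Prop :=
  ∃ A ∈ S, ∃ γ : Finset (Fin N), γ.Nonempty ∧ Disjoint A (cube d γ) ∧ A ∪ cube d γ ∈ S

/-- Every section of `F` over a set of cells off the diagonal can be partitioned into `T` convex
families of subsets of `[N]`. -/
def ConvexSections {N d : ℕ} (T : ℕ) (F : Finset (Finset (Fin d → Fin N))) : Prop :=
  ∀ A₀, A₀ ⊆ (diagonal d N)ᶜ → Pieces T (section' F A₀)

lemma cube_singleton {N : ℕ} (d : ℕ) (i : Fin N) : cube d {i} = {dg d i} := by
  ext x
  unfold cube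
  rw [Fintype.mem_piFinset, mem_singleton]
  constructor
  · intro h
    funext k
    exact mem_singleton.1 (h k)
  · rintro rfl k
    exact mem_singleton_self i

lemma no_pair {N d : ℕ} {S : Finset (Finset (Fin d → Fin N))} (h : ¬ Good S) :
    ∀ A ∈ S, ∀ i, dg d i ∉ A → A ∪ {dg d i} ∉ S := by
  intro A hA i hi hmem
  refine h ⟨A, hA, {i}, singleton_nonempty i, ?_, ?_⟩
  · rw [cube_singleton, disjoint_singleton_right]
    exact hi
  · rw [cube_singleton]
    exact hmem

/-- the diagonal part of `A` -/
def diagPart {N d : ℕ} (A : Finset (Fin d → Fin N)) : Finset (Fin N) :=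
  univ.filter fun i => dg d i ∈ A

/-- the sets with `⌊N/2⌋` diagonal cells -/
def middle (d N : ℕ) : Finset (Finset (Fin d → Fin N)) :=
  univ.filter fun A => #(diagPart A) = N / 2

lemma section_middle {d N : ℕ} (hd : 1 ≤ d) (A₀ : Finset (Fin d → Fin N))
    (hA₀ : A₀ ⊆ (diagonal d N)ᶜ) : section' (middle d N) A₀ = univ.powersetCard (N / 2) := by
  ext B
  have e : diagPart (A₀ ∪ B.image (dg d)) = B := by
    ext i
    unfold diagPart
    simp only [mem_filter, mem_univ, true_and, mem_union, mem_image]
    constructor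
    · rintro (h | ⟨j, hj, hji⟩)
      · exact absurd (mem_image.2 ⟨i, mem_univ _, rfl⟩) (mem_compl.1 (hA₀ h))
      · rwa [← dg_inj hd hji]
    · intro hi
      exact Or.inr ⟨i, hi, rfl⟩
  rw [section', mem_filter, middle, mem_filter, e, mem_powersetCard]
  simp

theorem result (d : ℕ) (hd : 1 ≤ d) :
    -- (1) subfamilies of families whose sections have partitions into `T` convex families
    (∀ (N T : ℕ) (F S : Finset (Finset (Fin d → Fin N))), ConvexSections T F → S ⊆ F → ¬ Good S →
      2 * #S ≤ #F + T * N.choose (N / 2) * 2 ^ (N ^ d - N)) ∧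
    -- (2) the maximum size of a family with convex sections that is not good
    (∀ N : ℕ, IsGreatest {c | ∃ F : Finset (Finset (Fin d → Fin N)),
      ConvexSections 1 F ∧ ¬ Good F ∧ #F = c} (N.choose (N / 2) * 2 ^ (N ^ d - N))) ∧
    -- (3) in terms of densities
    (∀ (N T : ℕ) (F S : Finset (Finset (Fin d → Fin N))), 1 ≤ N → ConvexSections T F → S ⊆ F →
      (#F : ℝ) / 2 + T / (2 * √N) * 2 ^ (N ^ d) < #S → Good S) ∧
    -- (4) two criteria: few alternations along chains, shallow monotone decision trees
    (∀ (N T : ℕ) (F : Finset (Finset (Fin d → Fin N))), 1 ≤ T →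
      (∀ A₀, A₀ ⊆ (diagonal d N)ᶜ → ∀ B, ¬ Runs (section' F A₀) (T + 1) B) →
      ConvexSections T F) ∧
    (∀ (N r : ℕ) (F : Finset (Finset (Fin d → Fin N))),
      (∀ A₀, A₀ ⊆ (diagonal d N)ᶜ → Tree r fun B => B ∈ section' F A₀) →
      ConvexSections (2 ^ r) F) := by
  have part1 : ∀ (N T : ℕ) (F S : Finset (Finset (Fin d → Fin N))), ConvexSections T F → S ⊆ F →
      ¬ Good S → 2 * #S ≤ #F + T * N.choose (N / 2) * 2 ^ (N ^ d - N) :=
    fun N T F S hF hSF hS => core hd F S hSF hF (no_pair hS)
  refine ⟨part1, ?_, ?_, ?_, ?_⟩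
  · intro N
    constructor
    · refine ⟨middle d N, ?_, ?_, ?_⟩
      · intro A₀ hA₀
        rw [section_middle hd A₀ hA₀]
        refine ⟨fun _ => 0, ?_⟩
        intro t A hA B hB X hAX hXB
        rw [mem_filter, mem_powersetCard] at hA hB ⊢
        have h1 := card_le_card hAX
        have h2 := card_le_card hXB
        exact ⟨⟨subset_univ _, by omega⟩, hA.2⟩
      · rintro ⟨A, hA, γ, ⟨i, hi⟩, hdis, h2⟩
        rw [middle, mem_filter] at hA h2
        have h3 : diagPart A ⊂ diagPart (A ∪ cube d γ) := by
          have hmem : dg d i ∈ cube d γ := by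
            unfold cube
            rw [Fintype.mem_piFinset]
            exact fun _ => hi
          refine (ssubset_iff_of_subset ?_).2 ⟨i, ?_, ?_⟩
          · intro j hj
            unfold diagPart at hj ⊢
            rw [mem_filter] at hj ⊢
            exact ⟨mem_univ _, mem_union_left _ hj.2⟩
          · unfold diagPart
            rw [mem_filter]
            exact ⟨mem_univ _, mem_union_right _ hmem⟩
          · unfold diagPart
            rw [mem_filter]
            rintro ⟨-, h⟩
            exact disjoint_left.1 hdis h hmem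
        have h4 := card_lt_card h3
        omega
      · rw [card_eq_sum_sections hd]
        rw [sum_congr rfl fun A₀ hA₀ => by
          rw [section_middle hd A₀ (mem_powerset.1 hA₀), card_powersetCard, card_univ,
            Fintype.card_fin]]
        rw [sum_const, card_powerset_compl hd, smul_eq_mul, mul_comm]
    · rintro c ⟨F, hF, hbad, rfl⟩
      have h := part1 N 1 F F hF subset_rfl hbad
      rw [one_mul] at h
      omega
  · intro N T F S hN hF hSF hcard
    by_contra hcon
    have h := part1 N T F S hF hSF hcon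
    have hle : N ≤ N ^ d := Nat.le_self_pow (by omega) N
    have h1 : (2 : ℝ) * #S ≤ #F + T * N.choose (N / 2) * 2 ^ (N ^ d - N) := by exact_mod_cast h
    have h2 := choose_real N hN
    have hN' : (0 : ℝ) < √N := Real.sqrt_pos.2 (by exact_mod_cast hN)
    have h3 : (T : ℝ) * N.choose (N / 2) * 2 ^ (N ^ d - N) ≤ T / √N * 2 ^ (N ^ d) := by
      calc (T : ℝ) * N.choose (N / 2) * 2 ^ (N ^ d - N) ≤ T * (2 ^ N / √N) * 2 ^ (N ^ d - N) := by
            gcongr
        _ = T / √N * (2 ^ N * 2 ^ (N ^ d - N)) := by ring
        _ = T / √N * 2 ^ (N ^ d) := by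
            rw [← pow_add]
            congr 2
            omega
    have h4 : (T : ℝ) / (2 * √N) * 2 ^ (N ^ d) = (T / √N * 2 ^ (N ^ d)) / 2 := by
      field_simp
    rw [h4] at hcard
    linarith
  · intro N T F hT h A₀ hA₀
    exact pieces_of_runs T hT _ (h A₀ hA₀)
  · intro N r F h A₀ hA₀
    exact pieces_of_tree (h A₀ hA₀) _ fun _ => Iff.rfl

end Pool.Agent.Results.MP_90b327_co.FewAlternations
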