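import Pool.Agent.Q146.RI.Fin
import Pool.Agent.TH635.PH.Thr
import Pool.Agent.TH635.BV.Thr2

set_option autoImplicit false

/-!
# The restricted density polynomial Hales-Jewett conjecture in families with few pieces near the
diagonal

If the conjecture holds in dimension `h` for all densities above `θ`, then for every `θ' > θ` every
family `S` of subsets of `[N]^h` which is not good satisfies
`|S ∩ F| ≤ θ' |F| + C T / √N * 2 ^ (N ^ h)` for all families `F` whose sections over the sets of
cells away from the diagonal can be partitioned into `T` convex families. The order of the error is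
best possible for `T = 1`.
-/

namespace Pool.Agent.Results.MP_90b327_co.PiecesNearDiagonal

open Finset

/-- The family `S` of subsets of `[N]^h` is good: there are `A ∈ S` and a nonempty `γ ⊆ [N]` with
`A ∩ γ^h = ∅` and `A ∪ γ^h ∈ S`. -/
def Good {h N : ℕ} (S : Finset (Finset (Fin h → Fin N))) : Prop :=
  ∃ A ∈ S, ∃ γ : Finset (Fin N), γ.Nonempty ∧
    Disjoint A (Fintype.piFinset (fun _ : Fin h => γ)) ∧
    A ∪ Fintype.piFinset (fun _ : Fin h => γ) ∈ S

/-- The cells of `[N]^h` all of whose coordinates lie in one of the intervals `[j m, (j+1) m)`. -/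
def near {h N : ℕ} (m : ℕ) : Finset (Fin h → Fin N) :=
  univ.filter fun x => ∀ i i', (x i : ℕ) / m = (x i' : ℕ) / m

/-- The pairs `(A, c)` with `c ∈ K`, `c ∉ A` and exactly one of `A`, `A ∪ {c}` in `F`. -/
def edges {h N : ℕ} (K : Finset (Fin h → Fin N)) (F : Finset (Finset (Fin h → Fin N))) :
    Finset (Finset (Fin h → Fin N) × (Fin h → Fin N)) :=
  univ.filter fun p => p.2 ∈ K ∧ p.2 ∉ p.1 ∧ (p.1 ∈ F ↔ insert p.2 p.1 ∉ F)

/-- The section of `F` over a set `A₀` of cells outside of `K`: the sets `B ⊆ K` with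
`A₀ ∪ B ∈ F`. -/
def sect {h N : ℕ} (K : Finset (Fin h → Fin N)) (F : Finset (Finset (Fin h → Fin N)))
    (A₀ : Finset (Fin h → Fin N)) : Finset (Finset (Fin h → Fin N)) :=
  univ.filter fun B => B ⊆ K ∧ A₀ ∪ B ∈ F

/-- Every section of `F` over a set of cells outside of `K` has a partition into `T` convex
families (`Pool.Agent.Q93.FA.Pieces`; convex: contains all sets between two members). -/
def ConvexOn {h N : ℕ} (K : Finset (Fin h → Fin N)) (T : ℕ)
    (F : Finset (Finset (Fin h → Fin N))) : Prop :=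
  ∀ A₀, Disjoint A₀ K → Q93.FA.Pieces T (sect K F A₀)

/-- The conjecture holds in dimension `h` for all densities above `θ`; `Q1` is the statement that
`Above h 0` holds for all `h ≥ 1`. -/
def Above (h : ℕ) (θ : ℝ) : Prop :=
  ∀ δ : ℝ, θ < δ → ∃ N : ℕ, 1 ≤ N ∧ ∀ S : Finset (Finset (Fin h → Fin N)),
    δ * (2 : ℝ) ^ (N ^ h) < #S → Good S

/-- The density above which the conjecture is known: `0` for `h = 1`, `0.3223` for `h = 2`, and
`(2^(h-1) - 1)/(2^h - 1)` for `h ≥ 3`. -/
noncomputable def threshold (h : ℕ) : ℝ :=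
  if h = 2 then 3223 / 10000 else ((2 : ℝ) ^ (h - 1) - 1) / (2 ^ h - 1)

/-- The relative form with density `θ'`: for some `m` and `C`, every family `S` that is not good
has at most `θ' |F| + C T / √N * 2 ^ (N ^ h)` members in every family `F` of subsets of `[N]^h`
with `T` convex pieces on the cells near the diagonal. -/
def Relative (h : ℕ) (θ' : ℝ) : Prop :=
  ∃ m : ℕ, 1 ≤ m ∧ ∃ C : ℝ, ∀ N T : ℕ, 1 ≤ N → ∀ F S : Finset (Finset (Fin h → Fin N)),
    ConvexOn (near m) T F → ¬ Good S →
      (#(S ∩ F) : ℝ) ≤ θ' * #F + C * T / √N * 2 ^ (N ^ h)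

/-- **Theorem.**
(1) Let `1 ≤ m ≤ N` and suppose that families of subsets of `[m]^h` which are not good have at most
`r` members. Then `|S ∩ F| ≤ (r / 2^(m^h)) |F| + r |edges (near m) F| / ⌊N/m⌋` for every family `F`
and every family `S` of subsets of `[N]^h` that is not good.
(2) `|edges K F| ≤ T √|K| 2^(N^h)` if `F` has `T` convex pieces on `K`.
(3) If the conjecture holds in dimension `h` for all densities above `θ`, then its relative form
holds for all densities above `θ`; in particular `Q1` implies its relative form for all positive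
densities.
(4) The relative form holds for all densities above `threshold h`.
(5) The order `1 / √N` of the error is best possible: for all `m`, `N` there is a family `F` with
one convex piece on `near m` that is not good and has at least `2^(N^h) / (4 √(N m^(h-1)))` members.
(6) `F` has `T` convex pieces on `K` if along no chain of subsets of `K`, the cells outside of `K`
being fixed, it has `T + 1` runs, and `2^s` convex pieces if the sections are decided by decision
trees of depth `s` with monotone queries and leaves. -/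
theorem result :
    (∀ h N m r : ℕ, 1 ≤ h → 1 ≤ m → m ≤ N →
      (∀ B : Finset (Finset (Fin h → Fin m)), ¬ Good B → #B ≤ r) →
      ∀ F S : Finset (Finset (Fin h → Fin N)), ¬ Good S →
        (#(S ∩ F) : ℝ) ≤ r / 2 ^ (m ^ h) * #F + r * #(edges (near m) F) / (N / m : ℕ)) ∧
    (∀ (h N T : ℕ) (K : Finset (Fin h → Fin N)) (F : Finset (Finset (Fin h → Fin N))),
      ConvexOn K T F → (#(edges K F) : ℝ) ≤ T * √(#K) * 2 ^ (N ^ h)) ∧
    (∀ h : ℕ, 1 ≤ h → ∀ θ θ' : ℝ, 0 ≤ θ → θ < θ' → Above h θ → Relative h θ') ∧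
    (∀ h : ℕ, 1 ≤ h → ∀ θ' : ℝ, threshold h < θ' → Relative h θ') ∧
    (∀ h N m : ℕ, 1 ≤ h → 1 ≤ m → 1 ≤ N → ∃ F : Finset (Finset (Fin h → Fin N)),
      ConvexOn (near m) 1 F ∧ ¬ Good F ∧
        (2 : ℝ) ^ (N ^ h) / (4 * √(N * m ^ (h - 1))) ≤ #F) ∧
    (∀ (h N T : ℕ) (K : Finset (Fin h → Fin N)) (F : Finset (Finset (Fin h → Fin N))), 1 ≤ T →
      (∀ A₀, Disjoint A₀ K → ∀ B, ¬ Q93.FA.Runs (sect K F A₀) (T + 1) B) → ConvexOn K T F) ∧
    (∀ (h N s : ℕ) (K : Finset (Fin h → Fin N)) (F : Finset (Finset (Fin h → Fin N))),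
      (∀ A₀, Disjoint A₀ K → Q93.FA.Tree s fun B => B ∈ sect K F A₀) → ConvexOn K (2 ^ s) F) := by
  have h3 : ∀ h : ℕ, 1 ≤ h → ∀ θ θ' : ℝ, 0 ≤ θ → θ < θ' → Above h θ → Relative h θ' :=
    fun h hh θ θ' hθ0 hθ ha => Q146.RI.relative hh θ θ' hθ0 hθ ha
  refine ⟨?_, ?_, h3, ?_, ?_, ?_, ?_⟩
  · intro h N m r hh hm hmN hr F S hS
    exact Q146.RI.boundary_form hh hm hmN F S hS r hr
  · intro h N T K F hF
    exact Q146.RI.edges_of_convexOn K T F hF
  · intro h hh θ' hθ'
    have h0 : 0 ≤ threshold h := by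
      unfold threshold
      split_ifs
      · norm_num
      · have h1 : (1 : ℝ) ≤ 2 ^ (h - 1) := one_le_pow₀ (by norm_num)
        have h2 : (1 : ℝ) < 2 ^ h := one_lt_pow₀ (by norm_num) (by omega)
        exact div_nonneg (by linarith) (by linarith)
    refine h3 h hh (threshold h) θ' h0 hθ' ?_
    intro δ hδ
    have key : ∃ N₀ : ℕ, ∀ N : ℕ, N₀ ≤ N → ∀ S : Finset (Finset (Fin h → Fin N)),
        δ * (2 : ℝ) ^ (N ^ h) < #S → Good S := by
      unfold threshold at hδ
      by_cases h2 : h = 2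
      · subst h2
        rw [if_pos rfl] at hδ
        exact Pool.Agent.TH635.BV.thr2 δ hδ
      · rw [if_neg h2] at hδ
        exact Pool.Agent.TH635.PH.Thr.thr h hh δ hδ
    obtain ⟨N₀, hN₀⟩ := key
    exact ⟨N₀ + 1, by omega, hN₀ (N₀ + 1) (by omega)⟩
  · intro h N m hh hm hN
    have hne : 1 ≤ #(near (h := h) (N := N) m) :=
      card_pos.2 ⟨fun _ => ⟨0, hN⟩, mem_filter.2 ⟨mem_univ _, fun _ _ => rfl⟩⟩
    obtain ⟨k, hk⟩ := Q146.RI.exists_level (near (h := h) (N := N) m) hne
    refine ⟨Q146.RI.level (near m) k, Q146.RI.level_convex (near m) k,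
      Q146.RI.level_not_good m k, le_trans ?_ hk⟩
    have h4 : (#(near (h := h) (N := N) m) : ℝ) ≤ N * m ^ (h - 1) := by
      exact_mod_cast Q146.RI.card_near hh hm
    have h5 : (0 : ℝ) < √(#(near (h := h) (N := N) m)) :=
      Real.sqrt_pos.2 (by exact_mod_cast hne)
    apply div_le_div_of_nonneg_left (by positivity) (by positivity)
    exact mul_le_mul_of_nonneg_left (Real.sqrt_le_sqrt h4) (by norm_num)
  · intro h N T K F hT hF A₀ hA₀
    exact Q93.FA.pieces_of_runs T hT _ (hF A₀ hA₀)
  · intro h N s K F hF A₀ hA₀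
    exact Q93.FA.pieces_of_tree (hF A₀ hA₀) _ fun _ => Iff.rfl

end Pool.Agent.Results.MP_90b327_co.PiecesNearDiagonal
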