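import Pool.Agent.Q146.RF.Neg
import Pool.Agent.TH635.PH.Thr
import Pool.Agent.TH635.BV.Thr2

set_option autoImplicit false

/-!
# The restricted density polynomial Hales-Jewett conjecture in sparse random families

Let `h ≥ 2` and let `F` be a random family of subsets of `[N]^h`, every subset being a member with
probability `p`, independently. If all densities above `θ` suffice in dimension `h` for being good,
then for `θ' > θ` with probability exponentially close to one all families `S ⊆ F` with at least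
`θ' p 2^(N^h)` members are good, for all `p ≥ exp (- c (log N)^(h/(h-1)))`. For
`p ≤ exp (- 3 (log N)^(h/(h-1)))` this is false for all `θ' < 1`: nearly the whole family is not
good. The conjecture is also equivalent to a bound for the number of families which are not good.
-/

namespace Pool.Agent.Results.MP_90b327_co.SparseRandomFamilies

open Finset Filter

/-- The family `S` of subsets of `[N]^h` is good: there are `A ∈ S` and a nonempty `γ ⊆ [N]` with
`A ∩ γ^h = ∅` and `A ∪ γ^h ∈ S`. -/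
def Good {h N : ℕ} (S : Finset (Finset (Fin h → Fin N))) : Prop :=
  ∃ A ∈ S, ∃ γ : Finset (Fin N), γ.Nonempty ∧
    Disjoint A (Fintype.piFinset (fun _ : Fin h => γ)) ∧
    A ∪ Fintype.piFinset (fun _ : Fin h => γ) ∈ S

/-- The conjecture holds in dimension `h` for all densities above `θ`; `Q1` is the statement that
`Above h 0` holds for all `h ≥ 1`. -/
def Above (h : ℕ) (θ : ℝ) : Prop :=
  ∀ δ : ℝ, θ < δ → ∃ N : ℕ, 1 ≤ N ∧ ∀ S : Finset (Finset (Fin h → Fin N)),
    δ * (2 : ℝ) ^ (N ^ h) < #S → Good S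

/-- The density above which the conjecture is known for `h ≥ 2`: `0.3223` for `h = 2`, and
`(2^(h-1) - 1)/(2^h - 1)` for `h ≥ 3`. -/
noncomputable def threshold (h : ℕ) : ℝ :=
  if h = 2 then 3223 / 10000 else ((2 : ℝ) ^ (h - 1) - 1) / (2 ^ h - 1)

/-- The probability of the family `F`, if every subset of `[N]^h` is a member with probability `p`,
independently of the others. -/
noncomputable def weight {h N : ℕ} (p : ℝ) (F : Finset (Finset (Fin h → Fin N))) : ℝ :=
  p ^ #F * (1 - p) ^ (2 ^ (N ^ h) - #F)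

open Classical in
/-- The probability that the random family has the property `P`. -/
noncomputable def prob {h N : ℕ} (p : ℝ) (P : Finset (Finset (Fin h → Fin N)) → Prop) : ℝ :=
  ∑ F with P F, weight p F

open Classical in
/-- The largest number of members of a subfamily of `F` which is not good. -/
noncomputable def maxNotGood {h N : ℕ} (F : Finset (Finset (Fin h → Fin N))) : ℕ :=
  (F.powerset.filter fun S => ¬ Good S).sup card

/-- `(log N)^(h/(h-1))` -/
noncomputable def rate (h N : ℕ) : ℝ := Real.log N ^ ((h : ℝ) / (h - 1))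

/-- The sparse random form with density `θ'`: for some `c > 0`, all large `N` and all `p` between
`exp (- c (log N)^(h/(h-1)))` and `1`, the random family contains with probability at most
`exp (- c p 2^(N^h))` a family with at least `θ' p 2^(N^h)` members which is not good. -/
def Sparse (h : ℕ) (θ' : ℝ) : Prop :=
  ∃ c : ℝ, 0 < c ∧ ∀ᶠ N : ℕ in atTop, ∀ p : ℝ, Real.exp (-(c * rate h N)) ≤ p → p ≤ 1 →
    prob p (fun F : Finset (Finset (Fin h → Fin N)) =>
      ∃ S ⊆ F, ¬ Good S ∧ θ' * (p * 2 ^ (N ^ h)) ≤ #S) ≤ Real.exp (-(c * (p * 2 ^ (N ^ h))))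

lemma weight_eq {h N : ℕ} (p : ℝ) (F : Finset (Finset (Fin h → Fin N))) :
    weight p F = Q146.RF.wt p F := by
  unfold weight Q146.RF.wt
  simp

lemma prob_eq {h N : ℕ} (p : ℝ) (P : Finset (Finset (Fin h → Fin N)) → Prop) :
    prob p P = Q146.RF.Pr p P := by
  unfold prob Q146.RF.Pr
  exact sum_congr rfl fun F _ => weight_eq p F

lemma rate_eq {h : ℕ} (hh : 2 ≤ h) (N : ℕ) : rate h N = Q146.RF.ex (h - 1) N := by
  unfold rate Q146.RF.ex
  have h1 : (0 : ℝ) ≤ Real.log N := Real.log_natCast_nonneg N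
  have h2 : (0 : ℝ) < ((h - 1 : ℕ) : ℝ) := by
    have : 0 < h - 1 := by omega
    exact_mod_cast this
  have h3 : ((h - 1 : ℕ) : ℝ) = (h : ℝ) - 1 := by
    rw [Nat.cast_sub (by omega)]; simp
  have h4 : (h : ℝ) / (h - 1) = 1 + 1 / ((h - 1 : ℕ) : ℝ) := by
    rw [← h3, one_add_div h2.ne', h3]; ring_nf
  rw [h4, Real.rpow_add_of_nonneg h1 (by norm_num) (by positivity), Real.rpow_one]

lemma ng_eq {h N : ℕ} (F : Finset (Finset (Fin h → Fin N))) :
    maxNotGood F = Q146.RF.ng F := rfl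

lemma sparse_of_above {h : ℕ} (hh : 2 ≤ h) {θ θ' : ℝ} (hθ0 : 0 ≤ θ) (hθ : θ < θ') (hθ1 : θ' ≤ 1)
    (ha : Above h θ) : Sparse h θ' := by
  obtain ⟨c, hc, hev⟩ := Q146.RF.random_main hh hθ0 hθ hθ1 ha
  refine ⟨c, hc, ?_⟩
  filter_upwards [hev] with N hN p hp hp1
  rw [rate_eq hh] at hp
  rw [prob_eq]
  exact hN p hp hp1

open Classical in
lemma le_Pr {V : Type*} [DecidableEq V] [Fintype V] {p : ℝ} (h0 : 0 ≤ p) (h1 : p ≤ 1)
    {P : Finset V → Prop} {F : Finset V} (hF : P F) : Q146.RF.wt p F ≤ Q146.RF.Pr p P :=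
  single_le_sum (f := fun F => Q146.RF.wt p F) (fun F _ => Q146.RF.wt_nonneg h0 h1 F)
    (mem_filter.2 ⟨mem_univ F, hF⟩)

lemma above_of_sparse {h : ℕ} {θ : ℝ} (hθ1 : θ < 1)
    (hs : ∀ θ' : ℝ, θ < θ' → θ' ≤ 1 → Sparse h θ') : Above h θ := by
  intro δ hδ
  obtain ⟨c, hc, hev⟩ := hs (min δ 1) (lt_min hδ hθ1) (min_le_right _ _)
  obtain ⟨N₀, hN₀⟩ := eventually_atTop.1 hev
  refine ⟨N₀ + 1, by omega, fun S hS => ?_⟩
  by_contra hG
  have hrate : 0 ≤ rate h (N₀ + 1) := Real.rpow_nonneg (Real.log_natCast_nonneg _) _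
  have h1 := hN₀ (N₀ + 1) (by omega) 1
    (Real.exp_le_one_iff.2 (by nlinarith)) le_rfl
  rw [prob_eq] at h1
  have h2 : (1 : ℝ) ≤ Q146.RF.Pr 1 (fun F : Finset (Finset (Fin h → Fin (N₀ + 1))) =>
      ∃ S ⊆ F, ¬ Good S ∧ min δ 1 * (1 * 2 ^ ((N₀ + 1) ^ h)) ≤ #S) := by
    have e1 : Q146.RF.wt 1 (univ : Finset (Finset (Fin h → Fin (N₀ + 1)))) = 1 := by
      simp [Q146.RF.wt]
    have e2 : min δ 1 * (1 * 2 ^ ((N₀ + 1) ^ h)) ≤ (#S : ℝ) := by
      rw [one_mul]
      exact (mul_le_mul_of_nonneg_right (min_le_left _ _) (by positivity)).trans hS.le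
    exact e1.symm.le.trans (le_Pr zero_le_one le_rfl ⟨S, subset_univ _, hG, e2⟩)
  have h3 : Real.exp (-(c * (1 * 2 ^ ((N₀ + 1) ^ h)))) < 1 := by
    rw [Real.exp_lt_one_iff]
    have : (0 : ℝ) < c * (1 * 2 ^ ((N₀ + 1) ^ h)) := by positivity
    linarith
  linarith

/-- **Theorem.** Let `h ≥ 2`.
(1) Let `0 ≤ θ < 1`. The conjecture holds in dimension `h` for all densities above `θ` if and only
if its sparse random form holds for all densities `θ'` with `θ < θ' ≤ 1`.
(2) The sparse random form holds for all densities above `threshold h`.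
(3) For all `N ≥ 1` and `0 ≤ p ≤ 1` the expectation of the largest number of members of a subfamily
of the random family which is not good is at least
`(1 - 2 p exp (2 (log N)^(h/(h-1)))) p 2^(N^h)`.
(4) Let `θ ≥ 0`. The conjecture holds in dimension `h` for all densities above `θ` if and only if
for every `θ' > θ` and all large `N` at most `2^(θ' 2^(N^h))` families of subsets of `[N]^h` are not
good. -/
theorem result (h : ℕ) (hh : 2 ≤ h) :
    (∀ θ : ℝ, 0 ≤ θ → θ < 1 → (Above h θ ↔ ∀ θ' : ℝ, θ < θ' → θ' ≤ 1 → Sparse h θ')) ∧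
    (∀ θ' : ℝ, threshold h < θ' → θ' ≤ 1 → Sparse h θ') ∧
    (∀ N : ℕ, 1 ≤ N → ∀ p : ℝ, 0 ≤ p → p ≤ 1 →
      (1 - 2 * p * Real.exp (2 * rate h N)) * (p * 2 ^ (N ^ h)) ≤
        ∑ F : Finset (Finset (Fin h → Fin N)), weight p F * maxNotGood F) ∧
    (∀ θ : ℝ, 0 ≤ θ → (Above h θ ↔ ∀ θ' : ℝ, θ < θ' → ∀ᶠ N : ℕ in atTop,
      ({S : Finset (Finset (Fin h → Fin N)) | ¬ Good S}.ncard : ℝ) ≤
        (2 : ℝ) ^ (θ' * 2 ^ (N ^ h)))) := by
  classical
  refine ⟨?_, ?_, ?_, ?_⟩
  · intro θ hθ0 hθ1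
    exact ⟨fun ha θ' hθ hθ' => sparse_of_above hh hθ0 hθ hθ' ha, above_of_sparse hθ1⟩
  · intro θ' hθ' hθ1
    have h0 : 0 ≤ threshold h := by
      unfold threshold
      split_ifs
      · norm_num
      · have h1 : (1 : ℝ) ≤ 2 ^ (h - 1) := one_le_pow₀ (by norm_num)
        have h2 : (1 : ℝ) < 2 ^ h := one_lt_pow₀ (by norm_num) (by omega)
        exact div_nonneg (by linarith) (by linarith)
    refine sparse_of_above hh h0 hθ' hθ1 ?_
    intro δ hδ
    have key : ∃ N₀ : ℕ, ∀ N : ℕ, N₀ ≤ N → ∀ S : Finset (Finset (Fin h → Fin N)),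
        δ * (2 : ℝ) ^ (N ^ h) < #S → Good S := by
      unfold threshold at hδ
      by_cases h2 : h = 2
      · subst h2
        rw [if_pos rfl] at hδ
        exact Pool.Agent.TH635.BV.thr2 δ hδ
      · rw [if_neg h2] at hδ
        exact Pool.Agent.TH635.PH.Thr.thr h (by omega) δ hδ
    obtain ⟨N₀, hN₀⟩ := key
    exact ⟨N₀ + 1, by omega, hN₀ (N₀ + 1) (by omega)⟩
  · intro N hN p h0 h1
    have := Q146.RF.neg_main hh hN h0 h1
    rw [rate_eq hh]
    simp only [weight_eq, ng_eq]
    exact this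
  · intro θ hθ0
    have h1 : ∀ N : ℕ, ({S : Finset (Finset (Fin h → Fin N)) | ¬ Good S}.ncard : ℝ) =
        #(univ.filter fun S : Finset (Finset (Fin h → Fin N)) => ¬ Q146.RF.Gd S) := by
      intro N
      congr 1
      rw [Set.ncard_eq_toFinset_card']
      congr 1
      ext S
      simp only [Set.mem_toFinset, Set.mem_ofPred_eq, mem_filter, mem_univ, true_and]
      rfl
    simp only [h1]
    exact Q146.RF.count_main hh hθ0

end Pool.Agent.Results.MP_90b327_co.SparseRandomFamilies
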